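import Pool.Agent.XV.Final
import Pool.Agent.Helper77.ST.RVass
import Pool.Agent.Helper77.ST.QRoot
import Pool.Agent.Helper87.BT.Final

/-!
# Vassiliev invariants detect arborescent knots with at least ten crossings in each twist region
-/

set_option autoImplicit false

namespace Pool.Agent.ARB

open Complex Filter Topology
open Pool.Agent.Helper9.TB (Lob)
open Pool.Agent.Helper5.TB (BW Lob_pi Lob_zero Lob_pi_sub Lob_neg Lob_hasDerivAt Lob_continuous)
open Pool.Agent.Helper9.TG Pool.Agent.Helper9.Kashaev Pool.Agent.XV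
open Pool.Agent.Helper77.ST (IsKnot IsVassiliev Gv tU exists_vassiliev rootPar Gv_root)
open Pool.Agent.Helper87.BT (Letter size dia wfL word pw)

/-! ### the Bloch-Wigner dilogarithm is positive on the upper half plane -/

lemma lob_ineq {b : ℝ} (hb : 0 < b) (hb1 : b < Real.pi) {a : ℝ} (ha : 0 < a)
    (hab : a + b < Real.pi) : 0 < Lob a + Lob b - Lob (a + b) := by
  set f : ℝ → ℝ := fun x => Lob x - Lob (x + b) with hf
  have hd : ∀ x ∈ Set.Ioo 0 (Real.pi - b), HasDerivAt f
      (Real.log (2 * Real.sin (x + b)) - Real.log (2 * Real.sin x)) x := by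
    intro x hx
    have s1 : 0 < Real.sin x := Real.sin_pos_of_pos_of_lt_pi hx.1 (by linarith [hx.2])
    have s2 : 0 < Real.sin (x + b) :=
      Real.sin_pos_of_pos_of_lt_pi (by linarith [hx.1]) (by linarith [hx.2])
    have h1 := Lob_hasDerivAt s1.ne'
    have h2 := (Lob_hasDerivAt s2.ne').comp_add_const x b
    have h3 := h1.sub h2
    rw [abs_of_pos (by positivity), abs_of_pos (by positivity)] at h3
    have h4 : HasDerivAt f (-Real.log (2 * Real.sin x) - -Real.log (2 * Real.sin (x + b))) x := h3
    have e4 : Real.log (2 * Real.sin (x + b)) - Real.log (2 * Real.sin x) =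
        -Real.log (2 * Real.sin x) - -Real.log (2 * Real.sin (x + b)) := by ring
    rw [e4]
    exact h4
  have hcont : Continuous f :=
    Lob_continuous.sub (Lob_continuous.comp (continuous_id.add continuous_const))
  have hconc : StrictConcaveOn ℝ (Set.Icc 0 (Real.pi - b)) f := by
    apply StrictAntiOn.strictConcaveOn_of_deriv (convex_Icc _ _) hcont.continuousOn
    rw [interior_Icc]
    intro x hx y hy hxy
    rw [(hd x hx).deriv, (hd y hy).deriv]
    have s1 : 0 < Real.sin x := Real.sin_pos_of_pos_of_lt_pi hx.1 (by linarith [hx.2])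
    have s2 : 0 < Real.sin (x + b) :=
      Real.sin_pos_of_pos_of_lt_pi (by linarith [hx.1]) (by linarith [hx.2])
    have s3 : 0 < Real.sin y := Real.sin_pos_of_pos_of_lt_pi hy.1 (by linarith [hy.2])
    have s4 : 0 < Real.sin (y + b) :=
      Real.sin_pos_of_pos_of_lt_pi (by linarith [hy.1]) (by linarith [hy.2])
    have s5 : 0 < Real.sin b := Real.sin_pos_of_pos_of_lt_pi hb hb1
    have s6 : 0 < Real.sin (y - x) :=
      Real.sin_pos_of_pos_of_lt_pi (by linarith) (by linarith [hy.2, hx.1])
    have key : Real.sin (y + b) * Real.sin x < Real.sin (x + b) * Real.sin y := by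
      have e : Real.sin (x + b) * Real.sin y - Real.sin (y + b) * Real.sin x =
          Real.sin b * Real.sin (y - x) := by
        rw [Real.sin_add, Real.sin_add, Real.sin_sub]
        ring
      have := mul_pos s5 s6
      linarith
    have h1 : Real.log (2 * Real.sin (y + b)) + Real.log (2 * Real.sin x) <
        Real.log (2 * Real.sin (x + b)) + Real.log (2 * Real.sin y) := by
      rw [← Real.log_mul (by positivity) (by positivity),
        ← Real.log_mul (by positivity) (by positivity)]
      apply Real.log_lt_log (by positivity)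
      nlinarith
    linarith
  have h0 : f 0 = -Lob b := by
    simp only [hf, zero_add]
    rw [Lob_zero]
    ring
  have h1 : f (Real.pi - b) = -Lob b := by
    simp only [hf]
    rw [Lob_pi_sub, sub_add_cancel, Lob_pi]
    ring
  have m0 : (0 : ℝ) ∈ Set.Icc 0 (Real.pi - b) := ⟨le_rfl, by linarith⟩
  have m1 : Real.pi - b ∈ Set.Icc 0 (Real.pi - b) := ⟨by linarith, le_rfl⟩
  have w1 : 0 < 1 - a / (Real.pi - b) := by
    have : a / (Real.pi - b) < 1 := by
      rw [div_lt_one (by linarith)]
      linarith
    linarith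
  have w2 : 0 < a / (Real.pi - b) := div_pos ha (by linarith)
  have w3 : 1 - a / (Real.pi - b) + a / (Real.pi - b) = 1 := by ring
  have h2 := hconc.2 m0 m1 (by linarith) w1 w2 w3
  rw [h0, h1] at h2
  have e : (1 - a / (Real.pi - b)) • (0 : ℝ) + (a / (Real.pi - b)) • (Real.pi - b) = a := by
    simp only [smul_eq_mul, mul_zero, zero_add]
    have : Real.pi - b ≠ 0 := by linarith
    field_simp
  rw [e] at h2
  have h3 : (1 - a / (Real.pi - b)) • -Lob b + (a / (Real.pi - b)) • -Lob b = -Lob b := by
    simp only [smul_eq_mul]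
    ring
  rw [h3] at h2
  simp only [hf] at h2
  linarith

lemma BW_pos {z : ℂ} (hz : 0 < z.im) : 0 < BW z := by
  have hz0 : z ≠ 0 := by
    intro h
    rw [h] at hz
    simp at hz
  have hz1 : 1 - z ≠ 0 := by
    intro h
    have := congrArg Complex.im h
    simp at this
    linarith
  have him : (1 - z).im = -z.im := by simp
  have a0 : 0 < arg z := by
    rcases lt_or_ge 0 (arg z) with h | h
    · exact h
    · exfalso
      have h1 : 0 ≤ arg z := Complex.arg_nonneg_iff.mpr hz.le
      have h2 : arg z = 0 := le_antisymm h h1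
      rw [Complex.arg_eq_zero_iff] at h2
      linarith [h2.2]
  have a1 : arg z < Real.pi := by
    rcases lt_or_ge (arg z) Real.pi with h | h
    · exact h
    · exfalso
      have h2 : arg z = Real.pi := le_antisymm (Complex.arg_le_pi z) h
      rw [Complex.arg_eq_pi_iff] at h2
      linarith [h2.2]
  have b0 : arg (1 - z) < 0 := Complex.arg_neg_iff.mpr (by rw [him]; linarith)
  have b1 : -Real.pi < arg (1 - z) := Complex.neg_pi_lt_arg _
  set α := arg z with hα
  set β := -arg (1 - z) with hβ
  have hsin : 0 < Real.sin (α + β) := by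
    have e1 : Real.sin (α + β) = Real.sin (arg z) * Real.cos (arg (1 - z)) -
        Real.cos (arg z) * Real.sin (arg (1 - z)) := by
      rw [hβ, ← sub_eq_add_neg, Real.sin_sub]
    rw [e1, Complex.sin_arg, Complex.sin_arg, Complex.cos_arg hz0, Complex.cos_arg hz1, him]
    have n1 : 0 < ‖z‖ := norm_pos_iff.mpr hz0
    have n2 : 0 < ‖1 - z‖ := norm_pos_iff.mpr hz1
    have e2 : z.im / ‖z‖ * ((1 - z).re / ‖1 - z‖) - z.re / ‖z‖ * (-z.im / ‖1 - z‖) =
        z.im / (‖z‖ * ‖1 - z‖) := by
      have : (1 - z).re = 1 - z.re := by simp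
      rw [this]
      field_simp
      ring
    rw [e2]
    positivity
  have hab : α + β < Real.pi := by
    by_contra hcon
    push Not at hcon
    have h1 : Real.sin (α + β - Real.pi) = -Real.sin (α + β) := Real.sin_sub_pi _
    have h2 : 0 ≤ Real.sin (α + β - Real.pi) :=
      Real.sin_nonneg_of_nonneg_of_le_pi (by linarith) (by rw [hβ]; linarith)
    linarith
  have h := lob_ineq (b := β) (by rw [hβ]; linarith) (by rw [hβ]; linarith) a0 hab
  have e : BW z = Lob α + Lob β - Lob (α + β) := by
    have e1 : Lob (arg (1 - z)) = -Lob β := by rw [hβ, Lob_neg]; ring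
    have e2 : Lob (arg (1 - z) - arg z) = -Lob (α + β) := by
      rw [← Lob_neg]
      congr 1
      rw [hβ, hα]
      ring
    show Lob (arg z) - Lob (arg (1 - z)) + Lob (arg (1 - z) - arg z) = _
    rw [e1, e2]
    ring
  rw [e]
  exact h

lemma GG_pos {y t : ℂ} (h : ShpX y t) : 0 < Pool.Agent.Helper9.TF.GG y t := by
  unfold Pool.Agent.Helper9.TF.GG
  have h1 := BW_pos h.p1
  have h2 := BW_pos h.p2
  have h3 := BW_pos h.p3
  linarith

lemma geoX_pos {s : ℤ} {t : PTree} {y D : ℂ} {V : ℝ} (h : GeoX s t y D V) :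
    0 ≤ V ∧ (1 ≤ t.deg → 0 < V) := by
  induction h with
  | leaf s a y => exact ⟨le_rfl, fun h => absurd h (by simp [PTree.deg])⟩
  | graft hp hc h1 h2 site kern ih1 ih2 =>
    have g1 := GG_pos h1
    have g2 := GG_pos h2
    exact ⟨by linarith [ih1.1, ih2.1], fun _ => by linarith [ih1.1, ih2.1]⟩

/-! ### the pattern of a tree -/

/-- the pattern of the tangle of a tree -/
def pat : ℕ → Bool → PTree → List Letter
  | k, s, .leaf _ => [.braid [(k, s)]]
  | k, s, .graft p c => pat k s p ++ (.cup k :: (pat (k + 1) (!s) c ++ [.cap (k + 2)]))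

/-- the exponents -/
def exps : PTree → List ℤ
  | .leaf a => [a]
  | .graft p c => exps p ++ (0 :: (exps c ++ [0]))

lemma length_pat : ∀ (t : PTree) (k : ℕ) (s : Bool), (exps t).length = (pat k s t).length
  | .leaf _, _, _ => rfl
  | .graft p c, k, s => by
    simp only [exps, pat, List.length_append, List.length_cons, List.length_nil]
    rw [length_pat p k s, length_pat c (k + 1) (!s)]

lemma size_pat : ∀ (t : PTree) (k : ℕ) (s : Bool), size (pat k s t) + 2 = 4 * t.size
  | .leaf _, _, _ => rfl
  | .graft p c, k, s => by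
    have h1 := size_pat p k s
    have h2 := size_pat c (k + 1) (!s)
    simp only [size, pat, List.map_append, List.map_cons, List.map_nil, List.sum_append,
      List.sum_cons, List.sum_nil, Letter.size, PTree.size] at h1 h2 ⊢
    omega

lemma wfL_append : ∀ (S T : List Letter) (n m l : ℕ), wfL n S m → wfL m T l → wfL n (S ++ T) l
  | [], _, _, _, _, h, h' => by
    have e : _ = _ := h
    subst e
    exact h'
  | .cup _ :: S, T, _, _, _, h, h' => ⟨h.1, wfL_append S T _ _ _ h.2 h'⟩
  | .cap _ :: S, T, _, _, _, h, h' => ⟨h.1, wfL_append S T _ _ _ h.2 h'⟩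
  | .braid _ :: S, T, _, _, _, h, h' => ⟨h.1, wfL_append S T _ _ _ h.2 h'⟩

lemma wfL_pat : ∀ (t : PTree) (k : ℕ) (s : Bool) (n : ℕ), k + 2 ≤ n → wfL n (pat k s t) n
  | .leaf _, k, s, n, h => by
    refine ⟨?_, rfl⟩
    intro x hx
    rw [List.mem_singleton] at hx
    subst hx
    exact h
  | .graft p c, k, s, n, h => by
    refine wfL_append _ _ _ _ _ (wfL_pat p k s n h) ⟨by omega, ?_⟩
    refine wfL_append _ _ _ _ _ (wfL_pat c (k + 1) (!s) (n + 2) (by omega)) ⟨by omega, ?_⟩
    show n + 2 - 2 = n
    omega

lemma dia_append : ∀ (S T : List Letter) (a b : List ℤ), a.length = S.length →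
    dia (S ++ T) (fun i => (a ++ b).getD i 0) =
      dia S (fun i => a.getD i 0) ++ dia T (fun i => b.getD i 0)
  | [], T, a, b, h => by
    have : a = [] := List.length_eq_zero_iff.mp h
    subst this
    rfl
  | .cup k :: S, T, [], b, h => by simp at h
  | .cap k :: S, T, [], b, h => by simp at h
  | .braid w :: S, T, [], b, h => by simp at h
  | .cup k :: S, T, x :: a, b, h => by
    have ih := dia_append S T a b (by simpa using h)
    simp only [List.cons_append, dia, List.getD_cons_succ]
    rw [ih]
  | .cap k :: S, T, x :: a, b, h => by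
    have ih := dia_append S T a b (by simpa using h)
    simp only [List.cons_append, dia, List.getD_cons_succ]
    rw [ih]
  | .braid w :: S, T, x :: a, b, h => by
    have ih := dia_append S T a b (by simpa using h)
    simp only [List.cons_append, dia, List.getD_cons_succ, List.getD_cons_zero]
    rw [ih, List.append_assoc]

lemma pw_twist (k : ℕ) (s : Bool) (a : ℤ) : pw [(k, s)] a = twist k s a := by
  have hf : ∀ (n : ℕ) (x : ℕ × Piece), (List.replicate n [x]).flatten = List.replicate n x := by
    intro n x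
    induction n with
    | zero => rfl
    | succ n ih => rw [List.replicate_succ, List.flatten_cons, ih, List.replicate_succ]; rfl
  unfold pw twist
  rcases lt_trichotomy a 0 with h | h | h
  · rw [if_neg (by omega)]
    have e : word (Pool.Agent.Helper87.BT.inv [(k, s)]) = [(k, if (!s) = true then .pos else .neg)] := rfl
    rw [e, hf]
    have : decide (0 < a) = false := decide_eq_false (by omega)
    rw [this]
    cases s <;> rfl
  · subst h
    rfl
  · rw [if_pos h.le]
    have e : word [(k, s)] = [(k, if s = true then .pos else .neg)] := rfl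
    rw [e, hf]
    have : decide (0 < a) = true := decide_eq_true h
    rw [this]
    cases s <;> rfl

lemma dia_pat : ∀ (t : PTree) (k : ℕ) (s : Bool),
    dia (pat k s t) (fun i => (exps t).getD i 0) = tangle k s t
  | .leaf a, k, s => by
    show pw [(k, s)] a ++ [] = twist k s a
    rw [List.append_nil, pw_twist]
  | .graft p c, k, s => by
    have h1 := dia_pat p k s
    have h2 := dia_pat c (k + 1) (!s)
    show dia (pat k s p ++ (.cup k :: (pat (k + 1) (!s) c ++ [.cap (k + 2)])))
      (fun i => (exps p ++ (0 :: (exps c ++ [0]))).getD i 0) = _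
    rw [dia_append _ _ _ _ (length_pat p k s), h1]
    show tangle k s p ++ ((k, .cup) :: dia (pat (k + 1) (!s) c ++ [.cap (k + 2)])
      (fun i => (exps c ++ [0]).getD i 0)) = _
    rw [dia_append _ _ _ _ (length_pat c (k + 1) (!s)), h2]
    show tangle k s p ++ ((k, .cup) :: (tangle (k + 1) (!s) c ++ [(k + 2, .cap)])) =
      tangle k s p ++ [(k, .cup)] ++ tangle (k + 1) (!s) c ++ [(k + 2, .cap)]
    simp

/-- the pattern of the link of a tree -/
def patLink (t : PTree) : List Letter := .cup 1 :: (pat 0 true t ++ [.cap 1])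

lemma dia_patLink (t : PTree) :
    dia (patLink t) (fun i => (0 :: (exps t ++ [0])).getD i 0) = plumbLink t := by
  show (1, Piece.cup) :: dia (pat 0 true t ++ [.cap 1]) (fun i => (exps t ++ [0]).getD i 0) = _
  rw [dia_append _ _ _ _ (length_pat t 0 true), dia_pat]
  show (1, Piece.cup) :: (tangle 0 true t ++ [(1, .cap)]) =
    [(1, .cup)] ++ tangle 0 true t ++ [(1, .cap)]
  simp

lemma wfL_patLink (t : PTree) : wfL 1 (patLink t) 1 := by
  refine ⟨le_rfl, ?_⟩
  refine wfL_append _ _ _ _ _ (wfL_pat t 0 true (1 + 2) (by omega)) ⟨by omega, ?_⟩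
  rfl

lemma size_patLink (t : PTree) : size (patLink t) = 4 * t.size := by
  have h := size_pat t 0 true
  simp only [size, patLink, List.map_append, List.map_cons, List.map_nil, List.sum_append,
    List.sum_cons, List.sum_nil, Letter.size] at h ⊢
  omega

/-! ### detection -/

lemma exists_level {t : PTree} (ht : AllGe 10 t) (hd : 1 ≤ t.deg) :
    ∃ l, 1 ≤ l ∧ Gv l tU (plumbLink t) ≠ Gv l tU [] := by
  by_contra hcon
  push Not at hcon
  obtain ⟨z, y, D, V, hz, hgeo, -, -, hlim⟩ := arbor10 t ht hd
  have hV : 0 < V := (geoX_pos hgeo).2 hd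
  have hone : ∀ l : ℕ, 1 ≤ l → ‖z (2 * l + 1)‖ = 1 := by
    intro l hl
    have h1 := congrArg (LaurentPolynomial.eval₂ (algebraMap ℚ ℂ) (rootPar l hl).u) (hcon l hl)
    rw [Gv_root, Gv_root] at h1
    have h2 := Complex.ofReal_injective h1
    have h3 : IsKashaev (2 * l + 1) (plumbLink t) (z (2 * l + 1)) :=
      (hz (2 * l + 1) (by omega) _).mpr rfl
    have h4 := h3 0 (by omega)
    rw [h4] at h2
    have h5 : Pool.Agent.Helper9.Kashaev.RT (2 * l + 1) [] (ket [0]) [0] = 1 := by
      show ket [0] [0] = 1
      simp [ket]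
    rw [h5] at h2
    have h6 : z (2 * l + 1) * ket [0] [0] = z (2 * l + 1) := by simp [ket]
    have h7 : ‖z (2 * l + 1) * ket [0] [0]‖ ^ 2 = ‖(1 : ℂ)‖ ^ 2 := h2
    rw [h6, norm_one, one_pow] at h7
    nlinarith [norm_nonneg (z (2 * l + 1))]
  have hsub : Tendsto (fun l : ℕ => 2 * (l + 1) + 1) atTop atTop := by
    apply tendsto_atTop_mono (fun l => ?_) tendsto_id
    simp only [id]
    omega
  have h1 := hlim.comp hsub
  have h2 : Tendsto (fun _ : ℕ => (0 : ℝ)) atTop (𝓝 V) := by
    refine h1.congr fun l => ?_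
    simp only [Function.comp]
    rw [hone (l + 1) (by omega)]
    simp
  have h3 := tendsto_nhds_unique h2 tendsto_const_nhds
  linarith

/-- Vassiliev invariants of bounded degree detect the arborescent knots of all trees with at most
`n` vertices and at least ten crossings in each twist region. -/
theorem detect (n : ℕ) : ∃ d : ℕ, ∀ t : PTree, t.size ≤ n → 1 ≤ t.deg → AllGe 10 t →
    IsKnot (plumbLink t) → ∃ I : Diagram → ℚ, IsVassiliev d I ∧ I (plumbLink t) ≠ I [] := by
  obtain ⟨d, hd⟩ := Pool.Agent.Helper87.BT.main (4 * n)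
  refine ⟨d, fun t h1 h2 h3 h4 => ?_⟩
  by_contra hcon
  push Not at hcon
  obtain ⟨l, hl, hne⟩ := exists_level h3 h2
  obtain ⟨e, I, hI, hI2⟩ := exists_vassiliev hl hne
  apply hI2
  have h5 := hd (patLink t) [] (wfL_patLink t) rfl (by rw [size_patLink]; omega) (by simp [size])
    (fun i => (0 :: (exps t ++ [0])).getD i 0) (fun _ => 0) (by rw [dia_patLink]; exact h4)
    (by show ([0] : List ℕ).length = 1; rfl)
    (fun I hI => by rw [dia_patLink]; exact hcon I hI) e I hI
  rw [dia_patLink] at h5
  exact h5

end Pool.Agent.ARB
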